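import Pool.Agent.L7h43.QU.Stm
import Pool.Agent.TH469.SX.Sect

/-! Project QU (helper43): FIVE, five sectors. -/

namespace Pool.Agent.L7h21.QU

open Pool.Agent.TH176.Nag Pool.Agent.TH603.Sur Pool.Agent.TH469.SX Pool.Agent.L7h43.QU

/-- a sector with apex at the height `(d - 1) / 5` -/
def Sec (a b : ℝ) (d : ℕ) : Set (ℤ × ℤ) :=
  {p | 0 ≤ p.2 ∧ a * (((d : ℝ) - 1) / 5 - p.2) ≤ p.1 ∧ (p.1 : ℝ) ≤ b * (((d : ℝ) - 1) / 5 - p.2)}

variable {a b c K : ℝ} {d : ℕ}

theorem Sec_fin (h : a < b) : (Sec a b d).Finite := by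
  have h1 : 0 < -a + b := by linarith
  refine (Reg_finite (α := a * (((d : ℝ) - 1) / 5)) (β := b * (((d : ℝ) - 1) / 5)) h1).subset ?_
  rintro ⟨x, y⟩ ⟨g1, g2, g3⟩
  simp only at g1 g2 g3
  refine ⟨g1, ?_, ?_⟩
  · simp only
    linarith
  · simp only
    linarith

theorem Sec_pos (h : a < b) {p : ℤ × ℤ} (hp : p ∈ Sec a b d) :
    0 ≤ ((d : ℝ) - 1) / 5 - p.2 := by
  obtain ⟨g1, g2, g3⟩ := hp
  by_contra hc
  push Not at hc
  nlinarith

theorem five_ne (hd : d % 5 = 3 ∨ d % 5 = 4) (y : ℤ) : ((d : ℝ) - 1) / 5 - y ≠ 0 := by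
  intro h
  have h1 : (d : ℝ) = 5 * y + 1 := by linarith
  have h2 : (d : ℤ) = 5 * y + 1 := by exact_mod_cast h1
  omega

theorem secE {ι κ : Type} [Finite ι] [Finite κ] {w : ι → ℕ} {v : κ → ℕ} (h1 : a < b) (h2 : b < c)
    (hw : Emp w (Sec a b d)) (hv : Emp v (Sec b c d)) : Emp (Sum.elim w v) (Sec a c d) := by
  have hfin := Sec_fin (d := d) (h1.trans h2)
  have key := cut_E (w := w) (v := v)
    (S := {p | p ∈ Sec a c d ∧ (p.1 : ℝ) ≤ b * (((d : ℝ) - 1) / 5 - p.2)})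
    (T := {p | p ∈ Sec a c d ∧ b * (((d : ℝ) - 1) / 5 - p.2) < p.1})
    (hfin.subset fun p hp => hp.1) (hfin.subset fun p hp => hp.1) (-b) ?_ ?_ ?_
  · refine key.mono ?_
    intro p hp
    rcases le_or_gt (p.1 : ℝ) (b * (((d : ℝ) - 1) / 5 - p.2)) with h | h
    · exact Or.inl ⟨hp, h⟩
    · exact Or.inr ⟨hp, h⟩
  · rintro p ⟨-, hp⟩ p' ⟨-, hp'⟩
    linarith
  · refine hw.mono ?_
    rintro p ⟨⟨g1, g2, g3⟩, g4⟩
    exact ⟨g1, g2, g4⟩
  · refine hv.mono ?_
    rintro p ⟨⟨g1, g2, g3⟩, g4⟩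
    exact ⟨g1, g4.le, g3⟩

theorem secS {ι κ : Type} [Fintype ι] [Fintype κ] {w : ι → ℕ} {v : κ → ℕ} (h1 : a < b) (h2 : b < c)
    (hb : Irrational b) (hd : d % 5 = 3 ∨ d % 5 = 4)
    (hw : Sur w (Sec a b d)) (hv : Sur v (Sec b c d)) : Sur (Sum.elim w v) (Sec a c d) := by
  have key := cut_S (w := w) (v := v) (S := Sec a b d) (T := Sec b c d) (-b) ?_ hw hv
  · refine key.mono ?_
    rintro p (hp | hp)
    · have h0 := Sec_pos h1 hp
      obtain ⟨g1, g2, g3⟩ := hp
      refine ⟨g1, g2, g3.trans ?_⟩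
      exact mul_le_mul_of_nonneg_right h2.le h0
    · have h0 := Sec_pos h2 hp
      obtain ⟨g1, g2, g3⟩ := hp
      refine ⟨g1, le_trans ?_ g2, g3⟩
      exact mul_le_mul_of_nonneg_right h1.le h0
  · rintro p ⟨g1, g2, g3⟩ p' ⟨g1', g2', g3'⟩
    have hne : b * (((d : ℝ) - 1) / 5 - p'.2) ≠ p'.1 := by
      intro h
      apply hb
      refine ⟨(p'.1 : ℚ) / (((d : ℚ) - 1) / 5 - p'.2), ?_⟩
      push_cast
      rw [← h]
      exact mul_div_cancel_right₀ _ (five_ne hd p'.2)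
    have h4 := lt_of_le_of_ne g2' hne
    linarith

theorem B5_eq : B5 5 K d = Sec (K - 5) K d := by
  ext p
  simp only [B5, Sec, Nat.cast_ofNat]

theorem mvE {ι : Type} {w : ι → ℕ} (h : Emp w (B5 5 K d)) (s : ℤ) :
    Emp w (Sec (K - 5 - 5 * s) (K - 5 * s) d) := by
  rw [B5_eq] at h
  refine h.comap 1 (-5 * s) 0 1 (s * (d - 1)) 0 (by norm_num) ?_
  rintro ⟨x, y⟩ ⟨g1, g2, g3⟩
  simp only at g1 g2 g3
  refine ⟨?_, ?_, ?_⟩
  · simp only
    omega
  · simp only
    push_cast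
    linarith
  · simp only
    push_cast
    linarith

theorem mvS {ι : Type} [Fintype ι] {w : ι → ℕ} (h : Sur w (B5 5 K d)) (s : ℤ) :
    Sur w (Sec (K - 5 - 5 * s) (K - 5 * s) d) := by
  rw [B5_eq] at h
  refine h.comap 1 (-5 * s) 0 1 (s * (d - 1)) 0 (by norm_num) ?_
  rintro ⟨x, y⟩ ⟨g1, g2, g3⟩
  simp only at g1 g2 g3
  refine ⟨(x + 5 * s * y - s * (d - 1), y), ⟨g1, ?_, ?_⟩, ?_⟩
  · simp only
    push_cast
    linarith
  · simp only
    push_cast
    linarith
  · ext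
    · simp only
      ring
    · simp only
      ring

theorem E5_eq (hd : d % 5 = 3 ∨ d % 5 = 4) : E5 ((15 - K) / 25) d = Sec (K - 15) (K + 10) d := by
  ext ⟨i, y⟩
  have key : ∀ j : ℕ, 5 * j ≤ d → (hh (d - 5 * j) : ℝ) = 25 * (((d : ℝ) - 1) / 5 - ((j : ℤ) : ℝ)) := by
    intro j hj
    obtain ⟨e, he⟩ : ∃ e, e = d - 5 * j := ⟨_, rfl⟩
    have he3 : 3 ≤ e := by omega
    have hde : (d : ℝ) = 5 * j + e := by
      have : d = 5 * j + e := by omega
      exact_mod_cast this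
    rw [← he, hh, if_neg (by omega), if_neg (by omega), if_neg (by omega), Nat.cast_sub (by omega),
      hde]
    push_cast
    ring
  constructor
  · rintro ⟨h1, h2, h3, h4⟩
    simp only at h1 h2 h3 h4
    obtain ⟨j, rfl⟩ := Int.eq_ofNat_of_zero_le h1
    rw [Int.toNat_natCast, key j (by omega)] at h3 h4
    refine ⟨h1, ?_, ?_⟩
    · simp only
      linarith
    · simp only
      linarith
  · intro hp
    have h0 := Sec_pos (by linarith) hp
    obtain ⟨h1, h3, h4⟩ := hp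
    simp only at h0 h1 h3 h4
    obtain ⟨j, rfl⟩ := Int.eq_ofNat_of_zero_le h1
    have h5 : (5 : ℝ) * j ≤ d := by
      push_cast at h0
      linarith
    have h6 : 5 * j ≤ d := by exact_mod_cast h5
    refine ⟨h1, ?_, ?_, ?_⟩
    · simp only
      omega
    · simp only
      rw [Int.toNat_natCast, key j h6]
      linarith
    · simp only
      rw [Int.toNat_natCast, key j h6]
      linarith

theorem s_FIVE : S_FIVE := by
  intro K d hK h5 h6 hd
  rw [E5_eq hd]
  constructor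
  · intro ι _ w h
    have q1 := mvE h 2
    have q2 := mvE h 1
    have q3 := mvE h 0
    have q4 := mvE h (-1)
    have q5 := mvE h (-2)
    push_cast at q1 q2 q3 q4 q5
    rw [show K - 5 - 5 * 2 = K - 15 by ring, show K - 5 * 2 = K - 10 by ring] at q1
    rw [show K - 5 - 5 * 1 = K - 10 by ring, show K - 5 * 1 = K - 5 by ring] at q2
    rw [show K - 5 - 5 * 0 = K - 5 by ring, show K - 5 * 0 = K by ring] at q3
    rw [show K - 5 - 5 * -1 = K by ring, show K - 5 * -1 = K + 5 by ring] at q4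
    rw [show K - 5 - 5 * -2 = K + 5 by ring, show K - 5 * -2 = K + 10 by ring] at q5
    exact secE (by linarith) (by linarith) (secE (by linarith) (by linarith)
      (secE (by linarith) (by linarith) (secE (by linarith) (by linarith) q1 q2) q3) q4) q5
  · intro ι _ w h
    have q1 := mvS h 2
    have q2 := mvS h 1
    have q3 := mvS h 0
    have q4 := mvS h (-1)
    have q5 := mvS h (-2)
    push_cast at q1 q2 q3 q4 q5
    rw [show K - 5 - 5 * 2 = K - 15 by ring, show K - 5 * 2 = K - 10 by ring] at q1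
    rw [show K - 5 - 5 * 1 = K - 10 by ring, show K - 5 * 1 = K - 5 by ring] at q2
    rw [show K - 5 - 5 * 0 = K - 5 by ring, show K - 5 * 0 = K by ring] at q3
    rw [show K - 5 - 5 * -1 = K by ring, show K - 5 * -1 = K + 5 by ring] at q4
    rw [show K - 5 - 5 * -2 = K + 5 by ring, show K - 5 * -2 = K + 10 by ring] at q5
    have i1 : Irrational (K - 10) := by simpa using hK.sub_natCast 10
    have i2 : Irrational (K - 5) := by simpa using hK.sub_natCast 5
    have i3 : Irrational (K + 5) := by simpa using hK.add_natCast 5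
    exact secS (by linarith) (by linarith) i3 hd (secS (by linarith) (by linarith) hK hd
      (secS (by linarith) (by linarith) i2 hd (secS (by linarith) (by linarith) i1 hd q1 q2) q3)
      q4) q5

end Pool.Agent.L7h21.QU
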